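import Pool.Agent.helper70.GB.SpecK

/-!
# Project gb, module RT: roots of `1 + X n`

`helper32`, problem MP_7933bc_al.
-/

open Matrix Polynomial

namespace GB

universe u

/-- truncated `k`-th root of `1 + T`. -/
theorem RT_root (B : Type u) [CommRing B] (k : ℕ) (hk : IsUnit (k : B)) (m : ℕ) :
    ∃ r : B[X], (X : B[X]) ^ (m + 1) ∣ r ^ k - (1 + X) ∧ (X : B[X]) ∣ r - 1 := by
  induction m with
  | zero =>
    refine ⟨1, ?_, by simp⟩
    rw [one_pow, zero_add, pow_one]
    exact ⟨-1, by ring⟩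
  | succ m ih =>
    obtain ⟨r, ⟨q, hq⟩, hr⟩ := ih
    obtain ⟨u, hu⟩ := hk
    -- the correction term
    refine ⟨r + C (-(↑u⁻¹ : B) * q.coeff 0) * X ^ (m + 1), ?_, ?_⟩
    · set c : B := -(↑u⁻¹ : B) * q.coeff 0 with hc
      obtain ⟨g, hg⟩ := hr
      have h1 : (C c * X ^ (m + 1)) ^ 2 ∣ (r + C c * X ^ (m + 1)) ^ k -
          (r ^ k + (k : B[X]) * r ^ (k - 1) * (C c * X ^ (m + 1))) := by
        obtain ⟨z, hz⟩ := Polynomial.powAddExpansion r (C c * X ^ (m + 1)) k
        rw [hz]
        exact ⟨z, by ring⟩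
      have h2 : (X : B[X]) ^ (m + 2) ∣ (C c * X ^ (m + 1)) ^ 2 := by
        rw [mul_pow, ← pow_mul]
        exact Dvd.dvd.mul_left (pow_dvd_pow _ (by omega)) _
      have h3 : (X : B[X]) ∣ r ^ (k - 1) - 1 := by
        have := sub_one_dvd_pow_sub_one r (k - 1)
        exact (Dvd.intro _ hg.symm).trans (by simpa using this)
      have h4 : (X : B[X]) ∣ q - C (q.coeff 0) := by
        rw [X_dvd_iff]
        simp
      obtain ⟨z1, hz1⟩ := h1
      obtain ⟨z2, hz2⟩ := h2
      obtain ⟨z3, hz3⟩ := h3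
      obtain ⟨z4, hz4⟩ := h4
      have hk' : (k : B[X]) * C c = - C (q.coeff 0) := by
        rw [hc]
        have : (k : B[X]) = C (k : B) := by simp
        rw [this, ← C_mul, ← hu, ← C_neg]
        congr 1
        rw [← mul_assoc, mul_neg, Units.mul_inv]
        ring
      refine ⟨z4 + (k : B[X]) * C c * z3 + z2 * z1, ?_⟩
      have e1 : (r + C c * X ^ (m + 1)) ^ k - (1 + X) =
          (r ^ k - (1 + X)) + (k : B[X]) * r ^ (k - 1) * (C c * X ^ (m + 1)) +
          (C c * X ^ (m + 1)) ^ 2 * z1 := by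
        rw [← hz1]; ring
      have e3 : r ^ (k - 1) = 1 + X * z3 := by rw [← hz3]; ring
      have e4 : q = C (q.coeff 0) + X * z4 := by rw [← hz4]; ring
      rw [e1, hq, hz2, e3]
      calc X ^ (m + 1) * q + (k : B[X]) * (1 + X * z3) * (C c * X ^ (m + 1)) +
            X ^ (m + 2) * z2 * z1
          = X ^ (m + 1) * (q + (k : B[X]) * C c) +
            X ^ (m + 2) * ((k : B[X]) * C c * z3 + z2 * z1) := by ring
        _ = X ^ (m + 1) * (X * z4) + X ^ (m + 2) * ((k : B[X]) * C c * z3 + z2 * z1) := by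
          rw [hk', ← hz4]; ring
        _ = _ := by ring
    · have : r + C (-(↑u⁻¹ : B) * q.coeff 0) * X ^ (m + 1) - 1 =
          (r - 1) + X * (C (-(↑u⁻¹ : B) * q.coeff 0) * X ^ m) := by ring
      rw [this]
      exact dvd_add hr (Dvd.intro _ rfl)

/-- the determinant of a unipotent matrix is unipotent. -/
theorem RT_det_nil {A : Type*} [CommRing A] {ι : Type*} [Fintype ι] [DecidableEq ι]
    (M : Matrix ι ι A) (hM : IsNilpotent (M - 1)) : IsNilpotent (M.det - 1) := by
  have h := Matrix.isNilpotent_charpoly_sub_pow_of_isNilpotent (M := 1 - M)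
    (by rw [← neg_sub]; exact hM.neg)
  have h2 : IsNilpotent (eval 1 ((1 - M).charpoly - X ^ Fintype.card ι)) := by
    have := h.map (evalRingHom (1 : A))
    simpa using this
  have h3 : eval 1 ((1 - M).charpoly) = M.det := by
    rw [Matrix.eval_charpoly]
    simp
  rw [eval_sub, h3] at h2
  simpa using h2

theorem RT_aeval_mul {A B : Type*} [CommRing A] [CommRing B] [Algebra B A] {ι : Type*} [Fintype ι]
    [DecidableEq ι] (ψ N : Matrix ι ι A) (h : Nᵀ * ψ = ψ * N) (p : B[X]) :
    (aeval N p)ᵀ * ψ = ψ * aeval N p := by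
  induction p using Polynomial.induction_on' with
  | add p q hp hq => rw [map_add, transpose_add, add_mul, mul_add, hp, hq]
  | monomial j c =>
    rw [aeval_monomial, ← Algebra.smul_def, transpose_smul, transpose_pow, smul_mul, Matrix.mul_smul]
    congr 1
    induction j with
    | zero => simp
    | succ j ih => rw [pow_succ, mul_assoc, h, ← mul_assoc, ih, mul_assoc, ← pow_succ]

theorem RT : RT_stmt.{u} := by
  intro B _ ι _ _ ψ n k hk hn hψ hdet
  set N : Matrix ι ι B[X] := (X : B[X]) • n.map C with hN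
  obtain ⟨m, hm⟩ := hn
  have hNm : N ^ (m + 1) = 0 := by
    rw [hN, _root_.smul_pow]
    have : (n.map C) ^ (m + 1) = (0 : Matrix ι ι B[X]) := by
      have h1 : (n.map C) ^ (m + 1) = (n ^ (m + 1)).map (C : B →+* B[X]) := by
        rw [← RingHom.mapMatrix_apply, ← RingHom.mapMatrix_apply, map_pow]
      rw [h1, pow_succ, hm, zero_mul]
      exact Matrix.map_zero _ (map_zero C)
    rw [this, smul_zero]
  obtain ⟨r, ⟨q, hq⟩, ⟨g, hg⟩⟩ := RT_root B k hk m
  have hNψ : Nᵀ * ψ.map C = ψ.map C * N := by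
    rw [hN, transpose_smul, smul_mul, Matrix.mul_smul]
    congr 1
    have := congrArg (fun M : Matrix ι ι B => M.map (C : B →+* B[X])) hψ
    simp only [Matrix.map_mul] at this
    exact this
  have hs : (aeval N r) ^ k = 1 + N := by
    have h1 : r ^ k = 1 + X + X ^ (m + 1) * q := by rw [← hq]; ring
    rw [← map_pow, h1, map_add, map_add, map_mul, map_pow, aeval_X, hNm, zero_mul, add_zero,
      map_one]
  have hnil : IsNilpotent (aeval N r - 1) := by
    have h1 : r = 1 + X * g := by rw [← hg]; ring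
    refine ⟨m + 1, ?_⟩
    have h2 : aeval N r - 1 = aeval N (X * g) := by
      rw [h1, map_add, map_one]; abel
    rw [h2, ← map_pow, mul_pow, map_mul, map_pow, aeval_X, hNm, zero_mul]
  refine ⟨aeval N r, hs, RT_aeval_mul _ _ hNψ r, ?_⟩
  set δ := (aeval N r).det with hδ
  have hδk : δ ^ k = 1 := by
    rw [hδ, ← Matrix.det_pow, hs]
    exact hdet
  have hδn : IsNilpotent (δ - 1) := RT_det_nil _ hnil
  have h1 : (∑ i ∈ Finset.range k, δ ^ i) * (δ - 1) = 0 := by
    rw [geom_sum_mul, hδk, sub_self]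
  have h2 : IsUnit (∑ i ∈ Finset.range k, δ ^ i) := by
    have h3 : IsNilpotent ((∑ i ∈ Finset.range k, δ ^ i) - (k : B[X])) := by
      have : (∑ i ∈ Finset.range k, δ ^ i) - (k : B[X]) =
          ∑ i ∈ Finset.range k, (δ ^ i - 1) := by
        rw [Finset.sum_sub_distrib]; simp
      rw [this]
      refine isNilpotent_sum fun i _ => ?_
      obtain ⟨z, hz⟩ := sub_one_dvd_pow_sub_one δ i
      rw [hz]
      exact (Commute.all _ _).isNilpotent_mul_right hδn
    have h4 : IsUnit (k : B[X]) := by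
      have := hk.map (C : B →+* B[X])
      simpa using this
    have := h3.isUnit_add_left_of_commute h4 (Commute.all _ _)
    simpa using this
  have := h2.mul_right_eq_zero.1 h1
  exact sub_eq_zero.1 this

end GB
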