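import Pool.Agent.helper70.GB.SpecN
import Pool.Agent.helper65.GB.Elem

/-!
# Project gb, module SM: finitely generated submonoids of abelian groups

`helper32`, problem MP_7933bc_al.
-/

open Matrix Polynomial

namespace GB

universe u

theorem SM_retract {A B : Type*} [CommRing A] [CommRing B] {n : ℕ} (f : A →+* B) (g : B →+* A)
    (h : ∀ x, g (f x) = x) (hB : AllComp n B) : AllComp n A := by
  intro v hv
  have h1 := hB (fun i => f (v i)) (hv.map f)
  have h2 := h1.map g
  simpa only [h] using h2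

theorem SM_local {R : Type*} [CommRing R] [IsLocalRing R] {n : ℕ} (hn : 2 ≤ n) :
    AllComp n R := by
  rintro v ⟨w, hw⟩
  have : ∃ k, IsUnit (v k) := by
    by_contra hcon
    push Not at hcon
    have h1 : v ⬝ᵥ w ∈ IsLocalRing.maximalIdeal R := by
      rw [dotProduct]
      exact Ideal.sum_mem _ fun i _ => Ideal.mul_mem_right _ _
        ((IsLocalRing.mem_maximalIdeal _).2 (hcon i))
    rw [hw] at h1
    exact (Ideal.ne_top_iff_one _).1 (IsLocalRing.maximalIdeal.isMaximal R).ne_top h1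
  obtain ⟨k, hk⟩ := this
  have : Nontrivial (Fin n) := Fin.nontrivial_iff_two_le.2 hn
  obtain ⟨l, hl⟩ := exists_ne k
  exact (comp_iff_gEq_single k).2 (EEq_single_of_isUnit k k l hl.symm v hk).gEq

section Rho

variable (R : Type*) [CommRing R] {P : Type*} [AddCommMonoid P]

theorem SM_retr_single (F : AddSubmonoid P) (hF : IsFace F) (m : P) (r : R) (h : m ∈ F) :
    retr R F hF (AddMonoidAlgebra.single m r) = AddMonoidAlgebra.single ⟨m, h⟩ r := by
  rw [retr, AddMonoidAlgebra.lift_single]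
  simp only [MonoidHom.coe_mk, OneHom.coe_mk, toAdd_ofAdd]
  rw [dif_pos h, AddMonoidAlgebra.smul_single, smul_eq_mul, mul_one]

theorem SM_retr_single' (F : AddSubmonoid P) (hF : IsFace F) (m : P) (r : R) (h : m ∉ F) :
    retr R F hF (AddMonoidAlgebra.single m r) = 0 := by
  rw [retr, AddMonoidAlgebra.lift_single]
  simp only [MonoidHom.coe_mk, OneHom.coe_mk, toAdd_ofAdd]
  rw [dif_neg h, smul_zero]

variable (a : P →+ ℤ) (ha : ∀ m, 0 ≤ a m)

/-- the face where `a` vanishes. -/
def SM_face : AddSubmonoid P := AddMonoidHom.mker a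

include ha in
theorem SM_face_isFace : IsFace (SM_face a) := by
  intro x y h
  have h' : a x + a y = 0 := by rw [← map_add]; exact h
  have h1 := ha x
  have h2 := ha y
  exact ⟨show a x = 0 by omega, show a y = 0 by omega⟩

/-- the inclusion of the algebra of the face. -/
noncomputable def SM_inc : AddMonoidAlgebra R (SM_face a) →ₐ[R] AddMonoidAlgebra R P :=
  AddMonoidAlgebra.mapDomainAlgHom R R (SM_face a).subtype

/-- the idempotent endomorphism of a face. -/
noncomputable def SM_rho : AddMonoidAlgebra R P →ₐ[R] AddMonoidAlgebra R P :=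
  (SM_inc R a).comp (retr R (SM_face a) (SM_face_isFace a ha))

theorem SM_inc_single (m : SM_face a) (r : R) :
    SM_inc R a (AddMonoidAlgebra.single m r) = AddMonoidAlgebra.single (m : P) r := by
  rw [SM_inc, AddMonoidAlgebra.mapDomainAlgHom_apply, AddMonoidAlgebra.mapDomain_single]
  rfl

theorem SM_rho_single (m : P) (r : R) : SM_rho R a ha (AddMonoidAlgebra.single m r) =
    if a m = 0 then AddMonoidAlgebra.single m r else 0 := by
  rw [SM_rho, AlgHom.comp_apply]
  split_ifs with h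
  · rw [SM_retr_single R _ _ m r h, SM_inc_single]
  · rw [SM_retr_single' R _ _ m r h, map_zero]

theorem SM_rho_coeff (x : AddMonoidAlgebra R P) (m : P) : (SM_rho R a ha x).coeff m =
    if a m = 0 then x.coeff m else 0 := by
  classical
  induction x using AddMonoidAlgebra.induction_linear with
  | zero => simp
  | add x y hx hy =>
    rw [map_add, AddMonoidAlgebra.coeff_add, AddMonoidAlgebra.coeff_add, Finsupp.add_apply,
      Finsupp.add_apply, hx, hy]
    split_ifs <;> simp
  | single k r =>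
    rw [SM_rho_single]
    by_cases hk : k = m
    · subst hk
      split_ifs <;> simp
    · split_ifs <;> simp [hk]

theorem SM_rho_idem : (SM_rho R a ha : AddMonoidAlgebra R P →+* AddMonoidAlgebra R P).comp
    (SM_rho R a ha : AddMonoidAlgebra R P →+* AddMonoidAlgebra R P) = SM_rho R a ha := by
  refine RingHom.ext fun x => AddMonoidAlgebra.ext (Finsupp.ext fun m => ?_)
  change (SM_rho R a ha (SM_rho R a ha x)).coeff m = (SM_rho R a ha x).coeff m
  rw [SM_rho_coeff, SM_rho_coeff]
  split_ifs <;> rfl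

theorem SM_rho_comm (b : P →+ ℤ) (hb : ∀ m, 0 ≤ b m) :
    (SM_rho R a ha : AddMonoidAlgebra R P →+* AddMonoidAlgebra R P).comp
    (SM_rho R b hb : AddMonoidAlgebra R P →+* AddMonoidAlgebra R P) =
    (SM_rho R b hb : AddMonoidAlgebra R P →+* AddMonoidAlgebra R P).comp
    (SM_rho R a ha : AddMonoidAlgebra R P →+* AddMonoidAlgebra R P) := by
  refine RingHom.ext fun x => AddMonoidAlgebra.ext (Finsupp.ext fun m => ?_)
  change (SM_rho R a ha (SM_rho R b hb x)).coeff m = (SM_rho R b hb (SM_rho R a ha x)).coeff m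
  rw [SM_rho_coeff, SM_rho_coeff, SM_rho_coeff, SM_rho_coeff]
  split_ifs <;> rfl

theorem SM_retr_inc (x : AddMonoidAlgebra R (SM_face a)) :
    retr R (SM_face a) (SM_face_isFace a ha) (SM_inc R a x) = x := by
  induction x using AddMonoidAlgebra.induction_linear with
  | zero => simp
  | add x y hx hy => rw [map_add, map_add, hx, hy]
  | single k r => rw [SM_inc_single, SM_retr_single R _ _ _ _ k.2]

theorem SM_range {n : ℕ} (h : AllComp n (AddMonoidAlgebra R (SM_face a))) :
    AllComp n (SM_rho R a ha : AddMonoidAlgebra R P →+* AddMonoidAlgebra R P).range := by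
  refine SM_retract
    ((retr R (SM_face a) (SM_face_isFace a ha) : AddMonoidAlgebra R P →+* _).comp
      (SM_rho R a ha : AddMonoidAlgebra R P →+* AddMonoidAlgebra R P).range.subtype)
    ((SM_inc R a : AddMonoidAlgebra R (SM_face a) →+* AddMonoidAlgebra R P).codRestrict
      (SM_rho R a ha : AddMonoidAlgebra R P →+* AddMonoidAlgebra R P).range ?_) ?_ h
  · intro x
    refine ⟨SM_inc R a x, ?_⟩
    change SM_inc R a (retr R (SM_face a) (SM_face_isFace a ha) (SM_inc R a x)) = SM_inc R a x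
    rw [SM_retr_inc R a ha]
  · rintro ⟨x, y, hy⟩
    apply Subtype.ext
    change SM_inc R a (retr R (SM_face a) (SM_face_isFace a ha) x) = x
    have hy' : SM_inc R a (retr R (SM_face a) (SM_face_isFace a ha) y) = x := hy
    rw [← hy', SM_retr_inc R a ha]

end Rho

section Incl

variable (R : Type*) [CommRing R] {P : Type*} [AddCommMonoid P] {N N' : AddSubmonoid P}

theorem SM_incl_single (h : N ≤ N') (m : N) (r : R) :
    incl R h (AddMonoidAlgebra.single m r) = AddMonoidAlgebra.single ⟨m.1, h m.2⟩ r := by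
  rw [incl, AddMonoidAlgebra.mapDomainAlgHom_apply, AddMonoidAlgebra.mapDomain_single]
  rfl

theorem SM_incl_injective (h : N ≤ N') : Function.Injective (incl R h) :=
  AddMonoidAlgebra.mapDomain_injective (AddSubmonoid.inclusion_injective h)

theorem SM_incl_coeff (h : N ≤ N') (x : AddMonoidAlgebra R N) (m : N) :
    (incl R h x).coeff ⟨m.1, h m.2⟩ = x.coeff m := by
  classical
  induction x using AddMonoidAlgebra.induction_linear with
  | zero => simp
  | add x y hx hy =>
    rw [map_add, AddMonoidAlgebra.coeff_add, AddMonoidAlgebra.coeff_add, Finsupp.add_apply,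
      Finsupp.add_apply, hx, hy]
  | single k r =>
    rw [SM_incl_single, AddMonoidAlgebra.coeff_single, AddMonoidAlgebra.coeff_single,
      Finsupp.single_apply, Finsupp.single_apply]
    simp only [Subtype.ext_iff]

theorem SM_incl_coeff' (h : N ≤ N') (x : AddMonoidAlgebra R N) (m : N') (hm : m.1 ∉ N) :
    (incl R h x).coeff m = 0 := by
  classical
  induction x using AddMonoidAlgebra.induction_linear with
  | zero => simp
  | add x y hx hy =>
    rw [map_add, AddMonoidAlgebra.coeff_add, Finsupp.add_apply, hx, hy, add_zero]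
  | single k r =>
    rw [SM_incl_single, AddMonoidAlgebra.coeff_single, Finsupp.single_apply, if_neg]
    rintro rfl
    exact hm k.2

theorem SM_exists_incl (h : N ≤ N') (y : AddMonoidAlgebra R N')
    (hy : ∀ m : N', m.1 ∉ N → y.coeff m = 0) : ∃ x, incl R h x = y := by
  refine ⟨AddMonoidAlgebra.comapDomain (AddSubmonoid.inclusion h)
    (AddSubmonoid.inclusion_injective h) y, ?_⟩
  rw [incl, AddMonoidAlgebra.mapDomainAlgHom_apply]
  refine AddMonoidAlgebra.mapDomain_comapDomain ?_ _
  intro m hm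
  have h1 : m.1 ∈ N := by
    by_contra hcon
    exact (Finsupp.mem_support_iff.1 (Finset.mem_coe.1 hm)) (hy m hcon)
  exact ⟨⟨m.1, h1⟩, rfl⟩

theorem SM_incl_incl {N'' : AddSubmonoid P} (h : N ≤ N') (h' : N' ≤ N'')
    (x : AddMonoidAlgebra R N) : incl R h' (incl R h x) = incl R (h.trans h') x := by
  induction x using AddMonoidAlgebra.induction_linear with
  | zero => simp
  | add x y hx hy => rw [map_add, map_add, hx, hy, map_add]
  | single k r => rw [SM_incl_single, SM_incl_single, SM_incl_single]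

theorem SM_um_incl (h : N ≤ N') {ι : Type*} [Fintype ι] {v : ι → AddMonoidAlgebra R N}
    (hv : Um v) : Um (fun i => incl R h (v i)) := by
  obtain ⟨w, hw⟩ := hv
  refine ⟨fun i => incl R h (w i), ?_⟩
  have := congrArg (incl R h) hw
  rw [map_one, dotProduct, map_sum] at this
  rw [dotProduct, ← this]
  exact Finset.sum_congr rfl fun i _ => (map_mul _ _ _).symm

end Incl

section Core

variable (R : Type*) [CommRing R] {G : Type*} [AddCommGroup G]

/-- the retraction commutes with the inclusion. -/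
theorem SM_rho_incl {N N' : AddSubmonoid G} (h : N ≤ N') (a : G →+ ℤ)
    (ha : ∀ m : N, 0 ≤ a.comp N.subtype m) (ha' : ∀ m : N', 0 ≤ a.comp N'.subtype m)
    (x : AddMonoidAlgebra R N) :
    SM_rho R (a.comp N'.subtype) ha' (incl R h x) =
      incl R h (SM_rho R (a.comp N.subtype) ha x) := by
  induction x using AddMonoidAlgebra.induction_linear with
  | zero => simp
  | add x y hx hy => rw [map_add, map_add, hx, hy, map_add, map_add]
  | single k r =>
    rw [SM_incl_single, SM_rho_single, SM_rho_single]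
    have e : (a.comp N'.subtype) ⟨k.1, h k.2⟩ = (a.comp N.subtype) k := rfl
    rw [e]
    split_ifs
    · rw [SM_incl_single]
    · rw [map_zero]

end Core

theorem SM_core (hIN : IN_stmt.{u}) (hDE : DE_stmt.{u}) (hST : ST_stmt.{u}) (hFA : FA_stmt.{u})
    (hFB : FB_stmt.{u}) (hRAO : RAO_stmt.{u}) (n : ℕ) (hn : 3 ≤ n) (R G : Type u) [CommRing R]
    [AddCommGroup G] [AddGroup.FG G] (M : AddSubmonoid G) (s : ℕ) (a : Fin s → G →+ ℤ)
    (hs : 0 < s) (hR : CC n R) (hpos : ∀ g ∈ M, -g ∈ M → g = 0)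
    (hgen : ∀ g : G, ∃ x ∈ M, ∃ y ∈ M, g = x - y)
    (ha : ∀ i, ∀ m : M, 0 ≤ (a i).comp M.subtype m)
    (hMW : ∀ g, (∀ i, 0 ≤ a i g) → ∃ k : ℕ, 1 ≤ k ∧ k • g ∈ M)
    (hface : ∀ i, AllComp n (AddMonoidAlgebra R (SM_face ((a i).comp M.subtype)))) :
    AllComp n (AddMonoidAlgebra R M) := by
  classical
  intro v hv
  have i₀ : Fin n := ⟨0, by omega⟩
  have k₀ : Fin s := ⟨0, hs⟩
  -- general facts
  have htor : ∀ g, (∀ i, a i g = 0) → ∃ k : ℕ, 1 ≤ k ∧ k • g = 0 := by
    intro g hg
    obtain ⟨k, hk, hkM⟩ := hMW g (fun i => (hg i).ge)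
    obtain ⟨l, hl, hlM⟩ := hMW (-g) (fun i => by rw [map_neg, hg i]; simp)
    refine ⟨l * k, Nat.mul_pos hl hk, hpos _ ?_ ?_⟩
    · rw [mul_smul]; exact M.nsmul_mem hkM l
    · have : -((l * k) • g) = k • (l • (-g)) := by
        rw [← mul_smul, mul_comm l k, smul_neg]
      rw [this]; exact M.nsmul_mem hlM k
  have htorM : ∀ g ∈ M, (∀ i, a i g = 0) → g = 0 := by
    intro g hg h0
    obtain ⟨k, hk, hk0⟩ := htor g h0
    refine hpos g hg ?_
    have : -g = (k - 1) • g := by
      have h1 : (k - 1) • g + g = k • g := by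
        rw [← succ_nsmul]; congr 1; omega
      rw [hk0] at h1
      exact (eq_neg_of_add_eq_zero_left h1).symm
    rw [this]
    exact M.nsmul_mem hg _
  -- step 1
  obtain ⟨w, hvw, hw⟩ := hFA (AddMonoidAlgebra R M) s
    (fun i => (SM_rho R ((a i).comp M.subtype) (ha i) :
      AddMonoidAlgebra R M →+* AddMonoidAlgebra R M))
    (fun i => SM_rho_idem R _ _) (fun i j => SM_rho_comm R _ _ _ _) n i₀ v hv
    (fun i => SM_range R _ _ (hface i))
  refine hvw.symm.comp ?_
  have hw' : ∀ i j, SM_rho R ((a i).comp M.subtype) (ha i) (w j) =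
      Pi.single (M := fun _ => AddMonoidAlgebra R M) i₀ 1 j := hw
  have hUw : Um w := hvw.um hv
  -- step 2: the saturation
  have hMN : M ≤ Nmon a := fun g hg i => ha i ⟨g, hg⟩
  have haN : ∀ i, ∀ m : Nmon a, 0 ≤ (a i).comp (Nmon a).subtype m := fun i m => m.2 i
  obtain ⟨w', hw'def⟩ : ∃ w' : Fin n → AddMonoidAlgebra R (Nmon a),
      w' = fun j => incl R hMN (w j) := ⟨_, rfl⟩
  have hUw' : Um w' := by
    rw [hw'def]
    exact SM_um_incl R hMN hUw
  have hρw' : ∀ i j, SM_rho R ((a i).comp (Nmon a).subtype) (haN i) (w' j) =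
      Pi.single (M := fun _ => AddMonoidAlgebra R (Nmon a)) i₀ 1 j := by
    intro i j
    rw [hw'def, SM_rho_incl R hMN (a i) (ha i) (haN i), hw' i j]
    by_cases hj : j = i₀
    · subst hj; rw [Pi.single_eq_same, Pi.single_eq_same, map_one]
    · rw [Pi.single_eq_of_ne hj, Pi.single_eq_of_ne hj, map_zero]
  have hComp' : Comp w' := by
    refine hST hRAO n hn R G s a hR htor i₀ w' hUw' ?_
    intro j g hg
    have h1 := congrArg (fun x => x.coeff g) (hρw' k₀ j)
    simp only [SM_rho_coeff] at h1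
    rw [if_pos (show (a k₀).comp (Nmon a).subtype g = 0 from hg k₀)] at h1
    exact h1
  -- step 3: normalisation over the saturation
  obtain ⟨ρ, hρdef⟩ : ∃ ρ : Fin s → (AddMonoidAlgebra R (Nmon a) →+* AddMonoidAlgebra R (Nmon a)),
      ρ = fun i => (SM_rho R ((a i).comp (Nmon a).subtype) (haN i) :
      AddMonoidAlgebra R (Nmon a) →+* AddMonoidAlgebra R (Nmon a)) := ⟨_, rfl⟩
  have hρapp : ∀ i x, ρ i x = SM_rho R ((a i).comp (Nmon a).subtype) (haN i) x := by
    intro i x
    rw [hρdef]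
    rfl
  obtain ⟨T, hTdet, hTrow, hTρ⟩ := hFB (AddMonoidAlgebra R (Nmon a)) s ρ
    (fun i => by rw [hρdef]; exact SM_rho_idem R _ _)
    (fun i j => by rw [hρdef]; exact SM_rho_comm R _ _ _ _) n i₀ w' hComp'
    (fun i j => by rw [hρapp]; exact hρw' i j)
  -- step 4: the matrix has entries in the algebra of `M ∪ I`
  obtain ⟨I, hI⟩ : ∃ I : Set G, ∀ u, u ∈ I ↔ ∀ i, 0 < a i u := ⟨{u | ∀ i, 0 < a i u}, fun _ => Iff.rfl⟩
  obtain ⟨M1, hM1⟩ : ∃ M1 : AddSubmonoid G, M1 = AddSubmonoid.closure ((M : Set G) ∪ I) := ⟨_, rfl⟩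
  have hMM1 : M ≤ M1 := by
    rw [hM1]
    exact fun g hg => AddSubmonoid.subset_closure (Or.inl hg)
  have hIM1 : ∀ g ∈ I, g ∈ M1 := by
    rw [hM1]
    exact fun g hg => AddSubmonoid.subset_closure (Or.inr hg)
  have hM1N : M1 ≤ Nmon a := by
    rw [hM1, AddSubmonoid.closure_le]
    rintro g (hg | hg)
    · exact hMN hg
    · exact fun i => ((hI g).1 hg i).le
  have hlift : ∀ y : AddMonoidAlgebra R (Nmon a),
      (∀ i, ∀ g, g ≠ 0 → (SM_rho R ((a i).comp (Nmon a).subtype) (haN i) y).coeff g = 0) →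
      ∃ x, incl R hM1N x = y := by
    intro y hy
    refine SM_exists_incl R hM1N y fun m hm => ?_
    by_cases hmI : m.1 ∈ I
    · exact absurd (hIM1 _ hmI) hm
    · have hex : ∃ i, ¬ 0 < a i m.1 := by
        by_contra hcon
        push Not at hcon
        exact hmI ((hI _).2 hcon)
      obtain ⟨i, hi⟩ := hex
      have hi0 : (a i).comp (Nmon a).subtype m = 0 := le_antisymm (not_lt.1 hi) (haN i m)
      have hm0 : m ≠ 0 := by
        rintro rfl
        exact hm M1.zero_mem
      have := hy i m hm0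
      rw [SM_rho_coeff, if_pos hi0] at this
      exact this
  have hone : ∀ g : Nmon a, g ≠ 0 → (1 : AddMonoidAlgebra R (Nmon a)).coeff g = 0 := by
    intro g hg
    rw [AddMonoidAlgebra.one_def, AddMonoidAlgebra.coeff_single, Finsupp.single_apply,
      if_neg (Ne.symm hg)]
  have hTentry : ∀ j k, ∃ x, incl R hM1N x = T j k := by
    intro j k
    refine hlift _ fun i g hg => ?_
    have h1 : SM_rho R ((a i).comp (Nmon a).subtype) (haN i) (T j k) =
        (1 : Matrix (Fin n) (Fin n) (AddMonoidAlgebra R (Nmon a))) j k := by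
      rw [← hρapp, ← hTρ i]
      rfl
    rw [h1]
    by_cases hjk : j = k
    · rw [hjk, Matrix.one_apply_eq]; exact hone g hg
    · rw [Matrix.one_apply_ne hjk]; simp
  choose T' hT' using hTentry
  obtain ⟨u, hu⟩ := hTdet
  obtain ⟨t, ht⟩ := hlift (↑u⁻¹ : AddMonoidAlgebra R (Nmon a)) (by
    intro i g hg
    have h1 : SM_rho R ((a i).comp (Nmon a).subtype) (haN i) T.det = 1 := by
      rw [← hρapp, RingHom.map_det, RingHom.mapMatrix_apply, hTρ i, Matrix.det_one]
    have h2 : SM_rho R ((a i).comp (Nmon a).subtype) (haN i) (↑u⁻¹) = 1 := by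
      have h3 : SM_rho R ((a i).comp (Nmon a).subtype) (haN i) (T.det * ↑u⁻¹) = 1 := by
        rw [← hu, Units.mul_inv, map_one]
      rw [map_mul, h1, one_mul] at h3
      exact h3
    rw [h2]
    exact hone g hg)
  have hdetT' : IsUnit (Matrix.det (Matrix.of T')) := by
    refine isUnit_iff_exists_inv.2 ⟨t, SM_incl_injective R hM1N ?_⟩
    have h1 : incl R hM1N (Matrix.det (Matrix.of T')) = T.det := by
      have : ((incl R hM1N : AddMonoidAlgebra R M1 →+* AddMonoidAlgebra R (Nmon a))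
          (Matrix.det (Matrix.of T'))) = T.det := by
        rw [RingHom.map_det]
        congr 1
        exact Matrix.ext fun j k => hT' j k
      exact this
    rw [map_mul, h1, ht, ← hu, Units.mul_inv, map_one]
  have hrow : ∀ k, T' i₀ k = incl R hMM1 (w k) := by
    intro k
    apply SM_incl_injective R hM1N
    rw [hT', SM_incl_incl, hTrow, hw'def]
  -- step 5: descent
  refine hDE R G M I ?_ M1 hMM1 hM1.le (Fin n) (by simp; omega) w hUw
    ⟨i₀, Matrix.of T', hdetT', funext fun k => hrow k⟩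
  intro u hu
  exact hIN G M s a hgen hMW u ((hI u).1 hu)

theorem SM_ind (hMW : MW_stmt.{u}) (hIN : IN_stmt.{u}) (hDE : DE_stmt.{u}) (hST : ST_stmt.{u})
    (hFA : FA_stmt.{u}) (hFB : FB_stmt.{u}) (hRAO : RAO_stmt.{u}) (n : ℕ) (hn : 3 ≤ n)
    (R : Type u) [CommRing R] (hR : CC n R) (q : ℕ) :
    ∀ (G P : Type u) [AddCommGroup G] [AddCommMonoid P] (φ : P →+ G), Function.Injective φ →
      (∀ a b : P, a + b = 0 → a = 0) → ∀ m : Fin q → P, AddSubmonoid.closure (Set.range m) = ⊤ →
      AllComp n (AddMonoidAlgebra R P) := by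
  classical
  induction q using Nat.strong_induction_on with
  | _ q ih =>
  intro G P _ _ φ hφ hpos m hm
  -- the group generated by `P`
  obtain ⟨H, hH⟩ : ∃ H : AddSubgroup G, H = AddSubgroup.closure (Set.range (fun j => φ (m j))) :=
    ⟨_, rfl⟩
  have hφH : ∀ x : P, φ x ∈ H := by
    intro x
    have hx : x ∈ AddSubmonoid.closure (Set.range m) := hm ▸ AddSubmonoid.mem_top x
    induction hx using AddSubmonoid.closure_induction with
    | mem y hy =>
      obtain ⟨j, rfl⟩ := hy
      rw [hH]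
      exact AddSubgroup.subset_closure ⟨j, rfl⟩
    | zero => rw [map_zero]; exact H.zero_mem
    | add y z _ _ hy hz => rw [map_add]; exact H.add_mem hy hz
  have hHfg : AddGroup.FG H := by
    rw [AddGroup.fg_iff_addSubgroup_fg, AddSubgroup.fg_iff]
    exact ⟨_, hH.symm, Set.finite_range _⟩
  obtain ⟨ψ, hψ⟩ : ∃ ψ : P →+ H, ∀ x, (ψ x : G) = φ x := ⟨φ.codRestrict H hφH, fun _ => rfl⟩
  have hψinj : Function.Injective ψ := by
    intro x y h
    exact hφ (by rw [← hψ, ← hψ, h])
  obtain ⟨M, hM⟩ : ∃ M : AddSubmonoid H, ∀ g, g ∈ M ↔ ∃ x, ψ x = g :=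
    ⟨AddMonoidHom.mrange ψ, fun g => AddMonoidHom.mem_mrange⟩
  have hψM : ∀ x, ψ x ∈ M := fun x => (hM _).2 ⟨x, rfl⟩
  obtain ⟨e, he⟩ : ∃ e : P ≃+ M, ∀ x, (e x : H) = ψ x := by
    refine ⟨AddEquiv.ofBijective (ψ.codRestrict M hψM) ⟨?_, ?_⟩, fun _ => rfl⟩
    · intro x y h
      exact hψinj (congrArg Subtype.val h)
    · rintro ⟨g, hg⟩
      obtain ⟨x, hx⟩ := (hM g).1 hg
      exact ⟨x, Subtype.ext hx⟩
  refine SM_retract (AddMonoidAlgebra.mapDomainRingHom R (e : P →+ M))
    (AddMonoidAlgebra.mapDomainRingHom R (e.symm : M →+ P)) ?_ ?_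
  · intro x
    induction x using AddMonoidAlgebra.induction_linear with
    | zero => simp
    | add x y hx hy => rw [map_add, map_add, hx, hy]
    | single k r => simp
  -- properties of `M`
  have hposM : ∀ g ∈ M, -g ∈ M → g = 0 := by
    intro g hg hg'
    obtain ⟨x, rfl⟩ := (hM g).1 hg
    obtain ⟨y, hy⟩ := (hM _).1 hg'
    have : x + y = 0 := hψinj (by rw [map_add, hy, map_zero, add_neg_cancel])
    rw [hpos x y this, map_zero]
  have hgenM : ∀ g : H, ∃ x ∈ M, ∃ y ∈ M, g = x - y := by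
    rintro ⟨g, hg⟩
    have hg2 := hg
    rw [hH] at hg2
    have key : ∃ x y : P, g = φ x - φ y := by
      clear hg
      induction hg2 using AddSubgroup.closure_induction with
      | mem y hy =>
        obtain ⟨j, rfl⟩ := hy
        exact ⟨m j, 0, by simp⟩
      | zero => exact ⟨0, 0, by simp⟩
      | add a b _ _ ha hb =>
        obtain ⟨x, y, rfl⟩ := ha
        obtain ⟨x', y', rfl⟩ := hb
        exact ⟨x + x', y + y', by rw [map_add, map_add]; abel⟩
      | neg a _ ha =>
        obtain ⟨x, y, rfl⟩ := ha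
        exact ⟨y, x, by abel⟩
    obtain ⟨x, y, h⟩ := key
    refine ⟨ψ x, hψM x, ψ y, hψM y, Subtype.ext ?_⟩
    rw [AddSubgroup.coe_sub, hψ, hψ, ← h]
  have hMcl : AddSubmonoid.closure (Set.range fun j => ψ (m j)) = M := by
    apply le_antisymm
    · rw [AddSubmonoid.closure_le]
      rintro _ ⟨j, rfl⟩
      exact hψM _
    · intro g hg
      obtain ⟨x, rfl⟩ := (hM g).1 hg
      have hx : x ∈ AddSubmonoid.closure (Set.range m) := hm ▸ AddSubmonoid.mem_top x
      induction hx using AddSubmonoid.closure_induction with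
      | mem y hy =>
        obtain ⟨j, rfl⟩ := hy
        exact AddSubmonoid.subset_closure ⟨j, rfl⟩
      | zero => rw [map_zero]; exact AddSubmonoid.zero_mem _
      | add y z _ _ hy hz => rw [map_add]; exact AddSubmonoid.add_mem _ (hy (hψM _)) (hz (hψM _))
  -- the trivial case
  by_cases hM0 : ∀ g ∈ M, g = 0
  · have hsub : Subsingleton M := ⟨fun x y => Subtype.ext (by rw [hM0 x x.2, hM0 y y.2])⟩
    have hloc := hR.loc
    have E : AddMonoidAlgebra R M ≃ₐ[R] R := AddMonoidAlgebra.uniqueAlgEquiv R M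
    exact SM_retract (E : AddMonoidAlgebra R M →+* R) (E.symm : R →+* AddMonoidAlgebra R M)
      (fun x => E.symm_apply_apply x) (SM_local (by omega))
  push Not at hM0
  obtain ⟨g₀, hg₀, hg₀0⟩ := hM0
  obtain ⟨s, a, ha1, ha2⟩ := hMW H q (fun j => ψ (m j))
  rw [hMcl] at ha2
  have ha3 : ∀ i, ∀ g ∈ M, 0 ≤ a i g := by
    intro i g hg
    rw [← hMcl] at hg
    induction hg using AddSubmonoid.closure_induction with
    | mem y hy => obtain ⟨j, rfl⟩ := hy; exact ha1 i j
    | zero => simp
    | add y z _ _ hy hz => rw [map_add]; exact add_nonneg hy hz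
  -- drop the functionals which vanish
  obtain ⟨s', e', he'⟩ : ∃ (s' : ℕ) (e' : Fin s' → Fin s), ∀ i, (∃ k, e' k = i) ↔
      ∃ j, a i (ψ (m j)) ≠ 0 := by
    let J := {i : Fin s // ∃ j, a i (ψ (m j)) ≠ 0}
    refine ⟨Fintype.card J, fun k => ((Fintype.equivFin J).symm k).1, fun i => ⟨?_, ?_⟩⟩
    · rintro ⟨k, rfl⟩
      exact ((Fintype.equivFin J).symm k).2
    · intro h
      exact ⟨Fintype.equivFin J ⟨i, h⟩, by simp⟩
  have ha4 : ∀ g, (∀ k, 0 ≤ a (e' k) g) → ∀ i, 0 ≤ a i g := by
    intro g hg i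
    by_cases hi : ∃ j, a i (ψ (m j)) ≠ 0
    · obtain ⟨k, rfl⟩ := (he' i).2 hi
      exact hg k
    · push Not at hi
      have h0 : ∀ g ∈ M, a i g = 0 := by
        intro g hg
        rw [← hMcl] at hg
        induction hg using AddSubmonoid.closure_induction with
        | mem y hy => obtain ⟨j, rfl⟩ := hy; exact hi j
        | zero => simp
        | add y z _ _ hy hz => rw [map_add, hy, hz, add_zero]
      obtain ⟨x, hx, y, hy, rfl⟩ := hgenM g
      rw [map_sub, h0 x hx, h0 y hy, sub_zero]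
  have hMW' : ∀ g, (∀ k, 0 ≤ a (e' k) g) → ∃ k : ℕ, 1 ≤ k ∧ k • g ∈ M :=
    fun g hg => ha2 g (ha4 g hg)
  have hs' : 0 < s' := by
    by_contra hcon
    have hs0 : s' = 0 := by omega
    subst hs0
    obtain ⟨k, hk, hkM⟩ := hMW' (-g₀) (fun k => Fin.elim0 k)
    have h1 : k • g₀ = 0 := hposM _ (M.nsmul_mem hg₀ k) (by rw [← smul_neg]; exact hkM)
    apply hg₀0
    refine hposM g₀ hg₀ ?_
    have : -g₀ = (k - 1) • g₀ := by
      have h2 : (k - 1) • g₀ + g₀ = k • g₀ := by
        rw [← succ_nsmul]; congr 1; omega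
      rw [h1] at h2
      exact (eq_neg_of_add_eq_zero_left h2).symm
    rw [this]
    exact M.nsmul_mem hg₀ _
  refine SM_core hIN hDE hST hFA hFB hRAO n hn R H M s' (fun k => a (e' k)) hs' hR hposM hgenM
    (fun k m => ha3 _ _ m.2) hMW' ?_
  -- the faces
  intro k
  obtain ⟨j₀, hj₀⟩ := (he' (e' k)).1 ⟨k, rfl⟩
  obtain ⟨T, hT⟩ : ∃ T : Finset (Fin q), ∀ j, j ∈ T ↔ a (e' k) (ψ (m j)) = 0 :=
    ⟨Finset.univ.filter fun j => a (e' k) (ψ (m j)) = 0, fun j => by simp⟩
  have hTq : T.card < q := by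
    have : T ⊂ Finset.univ := by
      refine Finset.ssubset_univ_iff.2 ?_
      rintro rfl
      exact hj₀ ((hT j₀).1 (Finset.mem_univ _))
    simpa using Finset.card_lt_card this
  have hFmem : ∀ (g : H) (hg : g ∈ M), a (e' k) g = 0 →
      (⟨g, hg⟩ : M) ∈ SM_face ((a (e' k)).comp M.subtype) := fun g hg h => h
  refine ih T.card hTq H (SM_face ((a (e' k)).comp M.subtype))
    (M.subtype.comp (SM_face ((a (e' k)).comp M.subtype)).subtype)
    (Subtype.val_injective.comp Subtype.val_injective) ?_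
    (fun t => ⟨⟨ψ (m (T.equivFin.symm t)), hψM _⟩,
      hFmem _ _ ((hT _).1 (T.equivFin.symm t).2)⟩) ?_
  · intro x y hxy
    have h1 : (x : M) + (y : M) = 0 := congrArg Subtype.val hxy
    have h2 : ((x : M) : H) + ((y : M) : H) = 0 := congrArg Subtype.val h1
    refine Subtype.ext (Subtype.ext (hposM _ (x : M).2 ?_))
    rw [neg_eq_of_add_eq_zero_right h2]
    exact (y : M).2
  · rw [eq_top_iff]
    rintro ⟨⟨g, hg⟩, hgF⟩ -
    have hg2 := hg
    rw [← hMcl] at hg2
    revert hg hgF
    induction hg2 using AddSubmonoid.closure_induction with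
    | mem y hy =>
      obtain ⟨j, rfl⟩ := hy
      intro hg hgF
      refine AddSubmonoid.subset_closure ⟨T.equivFin ⟨j, (hT j).2 hgF⟩, ?_⟩
      apply Subtype.ext
      apply Subtype.ext
      simp
    | zero =>
      intro hg hgF
      exact AddSubmonoid.zero_mem _
    | add y z hy' hz' hy hz =>
      intro hg hgF
      rw [hMcl] at hy' hz'
      have h0 : a (e' k) y + a (e' k) z = 0 := by rw [← map_add]; exact hgF
      have h1 := ha3 (e' k) y hy'
      have h2 := ha3 (e' k) z hz'
      have h3 := hy hy' (show a (e' k) y = 0 by omega)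
      have h4 := hz hz' (show a (e' k) z = 0 by omega)
      exact AddSubmonoid.add_mem _ h3 h4

theorem SM (hMW : MW_stmt.{u}) (hIN : IN_stmt.{u}) (hDE : DE_stmt.{u}) (hST : ST_stmt.{u})
    (hFA : FA_stmt.{u}) (hFB : FB_stmt.{u}) : SM_stmt.{u} := by
  intro hRAO n hn R G _ _ M hMfg hR hpos
  obtain ⟨S, hS⟩ := hMfg
  have hSM : ∀ x ∈ S, x ∈ M := fun x hx => hS ▸ AddSubmonoid.subset_closure (Finset.mem_coe.2 hx)
  refine SM_ind hMW hIN hDE hST hFA hFB hRAO n hn R hR S.card G M M.subtype
    Subtype.val_injective ?_ (fun t => ⟨S.equivFin.symm t, hSM _ (S.equivFin.symm t).2⟩) ?_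
  · intro x y hxy
    have h2 : (x : G) + (y : G) = 0 := congrArg Subtype.val hxy
    refine Subtype.ext (hpos _ x.2 ?_)
    rw [neg_eq_of_add_eq_zero_right h2]
    exact y.2
  · rw [eq_top_iff]
    rintro ⟨g, hg⟩ -
    have hg2 := hg
    rw [← hS] at hg2
    revert hg
    induction hg2 using AddSubmonoid.closure_induction with
    | mem y hy =>
      intro hg
      refine AddSubmonoid.subset_closure ⟨S.equivFin ⟨y, Finset.mem_coe.1 hy⟩, ?_⟩
      apply Subtype.ext
      simp
    | zero =>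
      intro hg
      exact AddSubmonoid.zero_mem _
    | add y z hy' hz' hy hz =>
      intro hg
      rw [hS] at hy' hz'
      exact AddSubmonoid.add_mem _ (hy hy') (hz hz')

end GB
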